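import Mathlib
import Pool.Agent.Q293.Emb.Step

set_option autoImplicit false

open Finset

namespace Pool.Agent.Results.MP_c810be_co.EmbExponential

/-- `f` multiplies all Hamming distances by some real number `r > 0`. -/
def Undistorted {k N : ℕ} (f : (Fin k → Bool) → (Fin N → Bool)) : Prop :=
  ∃ r : ℝ, 0 < r ∧ ∀ x y : Fin k → Bool,
    (hammingDist (f x) (f y) : ℝ) = r * (hammingDist x y : ℝ)

/-- The dimensions `N` such that every set of at least `δ 2^N` points of `{0,1}^N` contains the image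
of an undistorted map of `{0,1}^k`. -/
def EmbSet (δ : ℝ) (k : ℕ) : Set ℕ :=
  {N | ∀ D : Finset (Fin N → Bool), δ * 2 ^ N ≤ (D.card : ℝ) →
    ∃ f : (Fin k → Bool) → (Fin N → Bool), Undistorted f ∧ ∀ x, f x ∈ D}

/-- The number `Emb(1, δ, k)`. -/
noncomputable def Emb (δ : ℝ) (k : ℕ) : ℕ := sInf (EmbSet δ k)

lemma exists_pow (r : ℝ) (hr : 1 < r) : ∃ a : ℕ, 1 ≤ a ∧ r ≤ 2 ^ a ∧ (2 : ℝ) ^ a ≤ 2 * r := by
  obtain ⟨n, h1, h2⟩ := exists_nat_pow_near hr.le (by norm_num : (1 : ℝ) < 2)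
  refine ⟨n + 1, by omega, h2.le, ?_⟩
  rw [pow_succ]; linarith

lemma log_two_div (δ : ℝ) (h0 : 0 < δ) (h1 : δ ≤ 1) : 0.69 ≤ Real.log (2 / δ) := by
  have h2 := Real.log_two_gt_d9
  have h3 : Real.log 2 ≤ Real.log (2 / δ) := by
    apply Real.log_le_log (by norm_num)
    rw [le_div_iff₀ h0]; linarith
  linarith

lemma blocks (A : ℕ) (k : ℕ) : ∀ δ : ℝ, 0 < δ → δ ≤ 1 →
    8 * 64 ^ k * Real.log (2 / δ) ≤ 2 ^ A →
    ∀ D : Finset (Fin k → (Fin (4 * 2 ^ A) → Bool)),
      δ * (Fintype.card (Fin (4 * 2 ^ A) → Bool) : ℝ) ^ k ≤ (D.card : ℝ) →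
      ∃ x y : Fin k → (Fin (4 * 2 ^ A) → Bool), (∀ i, hammingDist (x i) (y i) = 2 * 2 ^ A) ∧
        ∀ S : Fin k → Bool, (fun i => if S i then x i else y i) ∈ D := by
  induction k with
  | zero =>
    intro δ h0 h1 h2 D hD
    refine ⟨fun i => i.elim0, fun i => i.elim0, fun i => i.elim0, fun S => ?_⟩
    have h3 : 0 < D.card := by
      have : (0 : ℝ) < D.card := lt_of_lt_of_le (by simpa using h0) hD
      exact_mod_cast this
    obtain ⟨d, hd⟩ := Finset.card_pos.1 h3
    have h4 : (fun i => if S i then (fun i => i.elim0 : Fin 0 → (Fin (4 * 2 ^ A) → Bool)) i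
        else (fun i => i.elim0 : Fin 0 → (Fin (4 * 2 ^ A) → Bool)) i) = d :=
      funext fun i => i.elim0
    rw [h4]
    exact hd
  | succ k ih =>
    intro δ h0 h1 h2 D hD
    have hL := log_two_div δ h0 h1
    set L := Real.log (2 / δ) with hLdef
    obtain ⟨a, ha, ha1, ha2⟩ := exists_pow (4 * L) (by linarith)
    have h64 : (1 : ℝ) ≤ 64 ^ k := one_le_pow₀ (by norm_num)
    have h64' : (64 : ℝ) ^ (k + 1) = 64 * 64 ^ k := by rw [pow_succ]; ring
    have haA : a ≤ A := by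
      have : (2 : ℝ) ^ a ≤ 2 ^ A := by
        refine ha2.trans (le_trans ?_ h2)
        rw [h64']
        nlinarith
      exact (pow_le_pow_iff_right₀ (by norm_num : (1 : ℝ) < 2)).1 this
    have hs : 2 ^ A = 2 ^ a * 2 ^ (A - a) := by rw [← pow_add]; congr 1; omega
    have hcard : 4 * 2 ^ A = (4 * 2 ^ a) * 2 ^ (A - a) := by rw [hs]; ring
    let e : Fin (4 * 2 ^ A) ≃ Fin (4 * 2 ^ a) × Fin (2 ^ (A - a)) :=
      (finCongr hcard).trans finProdFinEquiv.symm
    let B := Fin (4 * 2 ^ A) → Bool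
    let D0 : Finset (B × (Fin k → B)) := univ.filter fun p => Fin.cons (α := fun _ => B) p.1 p.2 ∈ D
    have hD0 : D0.card = D.card := by
      refine Finset.card_bij (fun p _ => Fin.cons (α := fun _ => B) p.1 p.2) ?_ ?_ ?_
      · intro p hp
        exact (mem_filter.1 hp).2
      · intro p _ p' _ h
        have e1 := congrFun h 0
        simp only [Fin.cons_zero] at e1
        have e2 : p.2 = p'.2 := by
          funext i
          have := congrFun h i.succ
          simpa only [Fin.cons_succ] using this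
        exact Prod.ext e1 e2
      · intro d hd
        refine ⟨(d 0, fun i => d i.succ), ?_, ?_⟩
        · rw [mem_filter]
          refine ⟨mem_univ _, ?_⟩
          have : Fin.cons (α := fun _ => B) (d 0) (fun i => d i.succ) = d := Fin.cons_self_tail d
          rw [this]; exact hd
        · exact Fin.cons_self_tail d
    have hcZ : (Fintype.card (Fin k → B) : ℝ) = (Fintype.card B : ℝ) ^ k := by
      rw [Fintype.card_fun, Fintype.card_fin]; push_cast; rfl
    obtain ⟨x0, y0, hxy, hfib⟩ := Pool.Agent.Q293.Emb.step (Z := Fin k → B) a (2 ^ (A - a)) ha e δ h0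
      ha1 D0 (by
        rw [hD0, hcZ]
        refine le_trans (le_of_eq ?_) hD
        rw [pow_succ]
        ring)
    set δ' : ℝ := δ / 2 / 2 ^ (8 * 2 ^ a) with hδ'
    have hδ'0 : 0 < δ' := by positivity
    have hδ'1 : δ' ≤ 1 := by
      rw [hδ']
      refine (div_le_self (by positivity) (one_le_pow₀ (by norm_num))).trans ?_
      linarith
    have hL' : Real.log (2 / δ') ≤ 64 * L := by
      have e1 : 2 / δ' = (2 / δ) * 2 ^ (8 * 2 ^ a + 1) := by
        rw [hδ', pow_succ]; field_simp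
      rw [e1, Real.log_mul (by positivity) (by positivity), Real.log_pow]
      have e2 := Real.log_two_lt_d9
      have e3 : ((8 * 2 ^ a + 1 : ℕ) : ℝ) = 8 * 2 ^ a + 1 := by push_cast; ring
      rw [e3]
      have e4 : (8 * (2 : ℝ) ^ a + 1) * Real.log 2 ≤ (8 * (2 * (4 * L)) + 1) * 0.6932 := by
        refine mul_le_mul (by linarith) (by linarith) (Real.log_nonneg (by norm_num)) (by linarith)
      linarith
    obtain ⟨x', y', hxy', hD'⟩ := ih δ' hδ'0 hδ'1 (by
        refine le_trans ?_ h2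
        rw [h64']
        have : (0 : ℝ) < 64 ^ k := by positivity
        nlinarith)
      (univ.filter fun z => (x0, z) ∈ D0 ∧ (y0, z) ∈ D0) (by rw [← hcZ]; exact hfib)
    refine ⟨Fin.cons (α := fun _ => B) x0 x', Fin.cons (α := fun _ => B) y0 y', ?_, ?_⟩
    · intro i
      refine Fin.cases ?_ (fun i => ?_) i
      · simp only [Fin.cons_zero]
        rw [hxy, hs]; ring
      · simp only [Fin.cons_succ]
        exact hxy' i
    · intro S
      have h3 := hD' (fun i => S i.succ)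
      rw [mem_filter] at h3
      have h4 : (fun i => if S i then Fin.cons (α := fun _ => B) x0 x' i else
          Fin.cons (α := fun _ => B) y0 y' i) =
          Fin.cons (α := fun _ => B) (if S 0 then x0 else y0)
            (fun i => if S i.succ then x' i else y' i) := by
        funext i
        refine Fin.cases ?_ (fun i => ?_) i
        · simp only [Fin.cons_zero]
        · simp only [Fin.cons_succ]
      rw [h4]
      by_cases h5 : S 0
      · simp only [h5, if_true]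
        exact (mem_filter.1 h3.2.1).2
      · simp only [h5]
        exact (mem_filter.1 h3.2.2).2

/-- concatenation of blocks -/
def cat (k m : ℕ) : (Fin k → (Fin m → Bool)) ≃ (Fin (k * m) → Bool) :=
  (Equiv.curry (Fin k) (Fin m) Bool).symm.trans (Equiv.arrowCongr finProdFinEquiv (Equiv.refl Bool))

lemma dist_cat (k m : ℕ) (u v : Fin k → (Fin m → Bool)) :
    hammingDist (cat k m u) (cat k m v) = ∑ i, hammingDist (u i) (v i) := by
  simp only [hammingDist, Finset.card_filter]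
  rw [← finProdFinEquiv.sum_comp, Fintype.sum_prod_type]
  refine Finset.sum_congr rfl fun i _ => Finset.sum_congr rfl fun j _ => ?_
  simp only [cat, Equiv.trans_apply, Equiv.arrowCongr_apply, Function.comp_apply,
    Equiv.symm_apply_apply, Equiv.refl_apply]
  rfl

lemma mem_embSet (A k : ℕ) (δ : ℝ) (h0 : 0 < δ) (h1 : δ ≤ 1)
    (h2 : 8 * 64 ^ k * Real.log (2 / δ) ≤ 2 ^ A) : k * (4 * 2 ^ A) ∈ EmbSet δ k := by
  intro D hD
  obtain ⟨x, y, hxy, hS⟩ := blocks A k δ h0 h1 h2 (D.map (cat k (4 * 2 ^ A)).symm.toEmbedding) (by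
    rw [Finset.card_map]
    refine le_trans (le_of_eq ?_) hD
    congr 1
    rw [Fintype.card_fun, Fintype.card_bool, Fintype.card_fin]
    push_cast
    rw [← pow_mul]
    congr 1
    ring)
  refine ⟨fun S => cat k (4 * 2 ^ A) (fun i => if S i then x i else y i),
    ⟨2 * 2 ^ A, by positivity, fun S T => ?_⟩, fun S => ?_⟩
  · rw [dist_cat]
    have h3 : ∀ i, hammingDist (if S i then x i else y i) (if T i then x i else y i) =
        if S i ≠ T i then 2 * 2 ^ A else 0 := by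
      intro i
      cases hs : S i <;> cases ht : T i <;> simp [hxy, hammingDist_comm (y i) (x i)]
    rw [Finset.sum_congr rfl fun i _ => h3 i, ← Finset.sum_filter, Finset.sum_const, smul_eq_mul]
    simp only [hammingDist]
    push_cast
    ring
  · have h3 := hS S
    rw [Finset.mem_map] at h3
    obtain ⟨d, hd, h4⟩ := h3
    simp only [← h4, Equiv.coe_toEmbedding, Equiv.apply_symm_apply]
    exact hd

lemma zero_mem (δ : ℝ) (h0 : 0 < δ) : 0 ∈ EmbSet δ 0 := by
  intro D hD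
  have h3 : 0 < D.card := by
    have : (0 : ℝ) < D.card := lt_of_lt_of_le (by simpa using h0) hD
    exact_mod_cast this
  obtain ⟨d, hd⟩ := Finset.card_pos.1 h3
  refine ⟨fun _ => d, ⟨1, one_pos, fun x y => ?_⟩, fun _ => hd⟩
  simp [Subsingleton.elim x y]

lemma bound (k : ℕ) (hk : 1 ≤ k) (δ : ℝ) (h0 : 0 < δ) (h1 : δ ≤ 1 / 2) :
    ∃ N ∈ EmbSet δ k, (N : ℝ) ≤ Real.exp (14 * k) * Real.log (1 / δ) := by
  have hL := log_two_div δ h0 (by linarith)
  have h64 : (64 : ℝ) ≤ 64 ^ k := by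
    calc (64 : ℝ) = 64 ^ 1 := (pow_one _).symm
      _ ≤ 64 ^ k := pow_le_pow_right₀ (by norm_num) hk
  obtain ⟨A, -, hA1, hA2⟩ := exists_pow (8 * 64 ^ k * Real.log (2 / δ)) (by nlinarith)
  refine ⟨k * (4 * 2 ^ A), mem_embSet A k δ h0 (by linarith) hA1, ?_⟩
  push_cast
  have h2 : Real.log (2 / δ) ≤ 2 * Real.log (1 / δ) := by
    have e1 : (2 : ℝ) / δ = 2 * (1 / δ) := by ring
    rw [e1, Real.log_mul (by norm_num) (by positivity)]
    have e2 : Real.log 2 ≤ Real.log (1 / δ) := by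
      apply Real.log_le_log (by norm_num)
      rw [le_div_iff₀ h0]; linarith
    linarith
  have hlog : 0 ≤ Real.log (1 / δ) := by linarith
  have h3 : (k : ℝ) ≤ 2 ^ k := by exact_mod_cast (Nat.lt_two_pow_self (n := k)).le
  have h4 : (128 : ℝ) ≤ 128 ^ k := by
    calc (128 : ℝ) = 128 ^ 1 := (pow_one _).symm
      _ ≤ 128 ^ k := pow_le_pow_right₀ (by norm_num) hk
  have hk0 : (0 : ℝ) ≤ k := Nat.cast_nonneg _
  have h5 : (16384 : ℝ) ^ k ≤ Real.exp (14 * k) := by
    have e1 : (2 : ℝ) ≤ Real.exp 1 := by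
      have := Real.add_one_le_exp (1 : ℝ); linarith
    have e2 : Real.exp (14 * k) = (Real.exp 1 ^ 14) ^ k := by
      rw [← Real.exp_nat_mul, ← Real.exp_nat_mul]; push_cast; ring_nf
    rw [e2]
    refine pow_le_pow_left₀ (by norm_num) ?_ _
    calc (16384 : ℝ) = 2 ^ 14 := by norm_num
      _ ≤ _ := pow_le_pow_left₀ (by norm_num) e1 _
  have h6 : (128 : ℝ) * (k * 64 ^ k) ≤ 16384 ^ k := by
    calc (128 : ℝ) * (k * 64 ^ k) ≤ 128 ^ k * (2 ^ k * 64 ^ k) := by gcongr
      _ = 16384 ^ k := by rw [← mul_pow, ← mul_pow]; norm_num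
  calc (k : ℝ) * (4 * 2 ^ A) ≤ k * (4 * (2 * (8 * 64 ^ k * Real.log (2 / δ)))) := by gcongr
    _ ≤ k * (4 * (2 * (8 * 64 ^ k * (2 * Real.log (1 / δ))))) := by gcongr
    _ = 128 * (k * 64 ^ k) * Real.log (1 / δ) := by ring
    _ ≤ 16384 ^ k * Real.log (1 / δ) := mul_le_mul_of_nonneg_right h6 hlog
    _ ≤ _ := mul_le_mul_of_nonneg_right h5 hlog

/-- There is a constant `C > 0` with `Emb(1, δ, k) ≤ e^(C k) log(1/δ)` for all `k` and all
`0 < δ ≤ 1/2` (natural logarithm). -/
theorem result : ∃ C : ℝ, 0 < C ∧ ∀ (k : ℕ) (δ : ℝ), 0 < δ → δ ≤ 1 / 2 →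
    IsLeast (EmbSet δ k) (Emb δ k) ∧
      (Emb δ k : ℝ) ≤ Real.exp (C * k) * Real.log (1 / δ) := by
  refine ⟨14, by norm_num, fun k δ h0 h1 => ?_⟩
  rcases Nat.eq_zero_or_pos k with rfl | hk
  · have h2 : Emb δ 0 ≤ 0 := Nat.sInf_le (zero_mem δ h0)
    refine ⟨⟨Nat.sInf_mem ⟨_, zero_mem δ h0⟩, fun _ h => Nat.sInf_le h⟩, ?_⟩
    rw [Nat.le_zero.1 h2]
    have h3 : 0 ≤ Real.log (1 / δ) := by
      apply Real.log_nonneg
      rw [le_div_iff₀ h0]; linarith
    simpa using h3
  · obtain ⟨N, hN, hb⟩ := bound k hk δ h0 h1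
    refine ⟨⟨Nat.sInf_mem ⟨_, hN⟩, fun _ h => Nat.sInf_le h⟩, le_trans ?_ hb⟩
    exact_mod_cast Nat.sInf_le hN

end Pool.Agent.Results.MP_c810be_co.EmbExponential
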